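import Mathlib

namespace Pool.Agent.Results.MP_708b53_co.NotWQO

/-- The Euclidean plane. -/
abbrev Plane : Type := EuclideanSpace ℝ (Fin 2)

/-- Twice the signed area of the triangle `a b c`. -/
def det3 (a b c : Plane) : ℝ := (b 0 - a 0) * (c 1 - a 1) - (b 1 - a 1) * (c 0 - a 0)

/-- The orientation of an ordered triple: `1` counterclockwise, `-1` clockwise, `0` collinear. -/
noncomputable def orient (a b c : Plane) : SignType := SignType.sign (det3 a b c)

/-- Two configurations have the same order type: some bijection preserves the orientation of every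
ordered triple. -/
def SameOrderType (S T : Finset Plane) : Prop :=
  ∃ e : S ≃ T, ∀ a b c : S,
    orient (e a : Plane) (e b : Plane) (e c : Plane) = orient (a : Plane) (b : Plane) (c : Plane)

/-- `T` is a subconfiguration of `S`. -/
def IsSubconfig (T S : Finset Plane) : Prop := ∃ U : Finset Plane, U ⊆ S ∧ SameOrderType T U

/-- Convex position: no three distinct points are collinear, and every point is a vertex
(extreme point) of the convex hull. -/
def ConvexPosition (S : Finset Plane) : Prop :=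
  (∀ a ∈ S, ∀ b ∈ S, ∀ c ∈ S, a ≠ b → b ≠ c → a ≠ c → ¬ Collinear ℝ ({a, b, c} : Set Plane)) ∧
    ∀ p ∈ S, p ∈ (convexHull ℝ (S : Set Plane)).extremePoints ℝ

/-- `MAXCONVEX(S)`: the largest size of a subset of `S` in convex position. -/
noncomputable def maxConvex (S : Finset Plane) : ℕ :=
  sSup {n | ∃ U : Finset Plane, U ⊆ S ∧ ConvexPosition U ∧ n = U.card}

/-! ### Integer points -/

/-- The point with integer coordinates `q`. -/
noncomputable def P (q : ℤ × ℤ) : Plane := !₂[(q.1 : ℝ), (q.2 : ℝ)]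

/-- Integer determinant. -/
def idet (a b c : ℤ × ℤ) : ℤ := (b.1 - a.1) * (c.2 - a.2) - (b.2 - a.2) * (c.1 - a.1)

@[simp] theorem P_zero (q : ℤ × ℤ) : (P q) 0 = (q.1 : ℝ) := by simp [P]
@[simp] theorem P_one (q : ℤ × ℤ) : (P q) 1 = (q.2 : ℝ) := by simp [P]

theorem P_injective : Function.Injective P := by
  intro a b h
  have h0 : (P a) 0 = (P b) 0 := by rw [h]
  have h1 : (P a) 1 = (P b) 1 := by rw [h]
  simp only [P_zero, P_one, Int.cast_inj] at h0 h1
  exact Prod.ext h0 h1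

theorem det3_P (a b c : ℤ × ℤ) : det3 (P a) (P b) (P c) = (idet a b c : ℝ) := by
  simp [det3, idet]

/-- The integer version of the configuration. -/
def ZZ (N : ℕ) : Finset (ℤ × ℤ) :=
  ((Finset.range (N + 1)).image fun i : ℕ => ((2 * i : ℤ), (0 : ℤ))) ∪
    {((1 : ℤ), (0 : ℤ)), ((2 * N - 1 : ℤ), (0 : ℤ))} ∪
    ((Finset.range (N + 1)).image fun i : ℕ => ((-2 * i : ℤ), (2 : ℤ))) ∪
    {((0 : ℤ), (1 : ℤ)), ((1 : ℤ), (1 : ℤ))}

/-- The configuration. -/
noncomputable def Z (N : ℕ) : Finset Plane := (ZZ N).map ⟨P, P_injective⟩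

theorem mem_ZZ (N : ℕ) (q : ℤ × ℤ) : q ∈ ZZ N ↔
    (∃ i : ℕ, i ≤ N ∧ q = (2 * (i : ℤ), 0)) ∨ q = (1, 0) ∨ q = (2 * (N : ℤ) - 1, 0) ∨
      (∃ i : ℕ, i ≤ N ∧ q = (-2 * (i : ℤ), 2)) ∨ q = (0, 1) ∨ q = (1, 1) := by
  simp only [ZZ, Finset.mem_union, Finset.mem_image, Finset.mem_range, Finset.mem_insert,
    Finset.mem_singleton, Nat.lt_succ_iff]
  constructor
  · rintro (((⟨i, hi, rfl⟩ | (h | h)) | ⟨i, hi, rfl⟩) | (h | h))
    · exact Or.inl ⟨i, by omega, rfl⟩
    · exact Or.inr (Or.inl h)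
    · exact Or.inr (Or.inr (Or.inl h))
    · exact Or.inr (Or.inr (Or.inr (Or.inl ⟨i, by omega, rfl⟩)))
    · exact Or.inr (Or.inr (Or.inr (Or.inr (Or.inl h))))
    · exact Or.inr (Or.inr (Or.inr (Or.inr (Or.inr h))))
  · rintro (⟨i, hi, rfl⟩ | h | h | ⟨i, hi, rfl⟩ | h | h)
    · exact Or.inl (Or.inl (Or.inl ⟨i, by omega, rfl⟩))
    · exact Or.inl (Or.inl (Or.inr (Or.inl h)))
    · exact Or.inl (Or.inl (Or.inr (Or.inr h)))
    · exact Or.inl (Or.inr ⟨i, by omega, rfl⟩)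
    · exact Or.inr (Or.inl h)
    · exact Or.inr (Or.inr h)

/-- Arithmetic description of the members. -/
theorem ZZ_cases {N : ℕ} {q : ℤ × ℤ} (h : q ∈ ZZ N) :
    (q.2 = 0 ∧ (q.1 % 2 = 0 ∨ q.1 = 1 ∨ q.1 = 2 * (N : ℤ) - 1)) ∨
      (q.2 = 2 ∧ q.1 % 2 = 0) ∨ (q.2 = 1 ∧ (q.1 = 0 ∨ q.1 = 1)) := by
  rw [mem_ZZ] at h
  rcases h with ⟨i, hi, rfl⟩ | rfl | rfl | ⟨i, hi, rfl⟩ | rfl | rfl <;> simp

theorem row_of_two {p q r : ℤ × ℤ} (hne : p ≠ q) (h : p.2 = q.2) (hd : idet p q r = 0) :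
    r.2 = p.2 := by
  have hx : q.1 - p.1 ≠ 0 := by
    intro h0
    exact hne (Prod.ext (by omega) h)
  have h1 : (q.1 - p.1) * (r.2 - p.2) = 0 := by
    unfold idet at hd
    rw [show q.2 - p.2 = 0 by omega] at hd
    linarith
  rcases mul_eq_zero.mp h1 with h2 | h2
  · exact absurd h2 hx
  · omega

theorem four_collinear {M : ℕ} {p q r s : ℤ × ℤ} (hp : p ∈ ZZ M) (hq : q ∈ ZZ M) (hr : r ∈ ZZ M)
    (hs : s ∈ ZZ M) (hpq : p ≠ q) (hpr : p ≠ r) (hps : p ≠ s) (hqr : q ≠ r) (hqs : q ≠ s)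
    (hrs : r ≠ s) (hd : ∀ a ∈ ({p, q, r, s} : Set (ℤ × ℤ)), ∀ b ∈ ({p, q, r, s} : Set (ℤ × ℤ)),
      ∀ c ∈ ({p, q, r, s} : Set (ℤ × ℤ)), idet a b c = 0) :
    (p.2 = 0 ∨ p.2 = 2) ∧ q.2 = p.2 := by
  have key : q.2 = p.2 ∧ r.2 = p.2 ∧ s.2 = p.2 := by
    have hp' := ZZ_cases hp
    have hq' := ZZ_cases hq
    have hr' := ZZ_cases hr
    have hs' := ZZ_cases hs
    have hpig : p.2 = q.2 ∨ p.2 = r.2 ∨ p.2 = s.2 ∨ q.2 = r.2 ∨ q.2 = s.2 ∨ r.2 = s.2 := by
      omega
    rcases hpig with h | h | h | h | h | h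
    · exact ⟨h.symm, row_of_two hpq h (hd _ (by simp) _ (by simp) _ (by simp)),
        row_of_two hpq h (hd _ (by simp) _ (by simp) _ (by simp))⟩
    · exact ⟨row_of_two hpr h (hd _ (by simp) _ (by simp) _ (by simp)), h.symm,
        row_of_two hpr h (hd _ (by simp) _ (by simp) _ (by simp))⟩
    · exact ⟨row_of_two hps h (hd _ (by simp) _ (by simp) _ (by simp)),
        row_of_two hps h (hd _ (by simp) _ (by simp) _ (by simp)), h.symm⟩
    · have e1 := row_of_two hqr h (hd q (by simp) r (by simp) p (by simp))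
      have e2 := row_of_two hqr h (hd q (by simp) r (by simp) s (by simp))
      exact ⟨by omega, by omega, by omega⟩
    · have e1 := row_of_two hqs h (hd q (by simp) s (by simp) p (by simp))
      have e2 := row_of_two hqs h (hd q (by simp) s (by simp) r (by simp))
      exact ⟨by omega, by omega, by omega⟩
    · have e1 := row_of_two hrs h (hd r (by simp) s (by simp) p (by simp))
      have e2 := row_of_two hrs h (hd r (by simp) s (by simp) q (by simp))
      exact ⟨by omega, by omega, by omega⟩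
  obtain ⟨k1, k2, k3⟩ := key
  refine ⟨?_, k1⟩
  have hp' := ZZ_cases hp
  have hq' := ZZ_cases hq
  have hr' := ZZ_cases hr
  have n1 : p.1 ≠ q.1 := fun h => hpq (Prod.ext h k1.symm)
  have n2 : p.1 ≠ r.1 := fun h => hpr (Prod.ext h k2.symm)
  have n3 : q.1 ≠ r.1 := fun h => hqr (Prod.ext h (k1.trans k2.symm))
  omega

theorem sign_eq_zero_iff' {a b : ℤ} (h : SignType.sign a = SignType.sign b) : a = 0 ↔ b = 0 := by
  rw [← sign_eq_zero_iff, h, sign_eq_zero_iff]

theorem sign_pos_iff' {a b : ℤ} (h : SignType.sign a = SignType.sign b) : 0 < a ↔ 0 < b := by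
  rw [← sign_eq_one_iff, h, sign_eq_one_iff]

theorem final_arith {N M : ℕ} (hN : 3 ≤ N) (e σ x0 x1 x2 y z a d : ℤ) (he : e = 1 ∨ e = -1)
    (hσ : σ = 1 ∨ σ = -1) (l1 : x1 = x0 + 2 * e) (l2 : x2 = x0 + 4 * e)
    (l3 : y = x0 + 2 * e * ((N : ℤ) - 1)) (l4 : z = x0 + 2 * e * N)
    (o1 : 0 < (a - x0) * σ) (o2 : 0 < (x1 - a) * σ) (o3 : 0 < (d - y) * σ)
    (o4 : 0 < (z - d) * σ)
    (cA : (σ = 1 ∧ (a % 2 = 0 ∨ a = 1 ∨ a = 2 * (M : ℤ) - 1)) ∨ (σ = -1 ∧ a % 2 = 0))
    (cD : (σ = 1 ∧ (d % 2 = 0 ∨ d = 1 ∨ d = 2 * (M : ℤ) - 1)) ∨ (σ = -1 ∧ d % 2 = 0))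
    (c0 : (σ = 1 ∧ (x0 % 2 = 0 ∨ x0 = 1 ∨ x0 = 2 * (M : ℤ) - 1)) ∨ (σ = -1 ∧ x0 % 2 = 0))
    (c1 : (σ = 1 ∧ (x1 % 2 = 0 ∨ x1 = 1 ∨ x1 = 2 * (M : ℤ) - 1)) ∨ (σ = -1 ∧ x1 % 2 = 0))
    (c2 : (σ = 1 ∧ (x2 % 2 = 0 ∨ x2 = 1 ∨ x2 = 2 * (M : ℤ) - 1)) ∨ (σ = -1 ∧ x2 % 2 = 0)) :
    N = M := by
  rcases hσ with rfl | rfl
  · have hx0 : x0 % 2 = 0 := by
      rcases he with rfl | rfl <;> omega
    have ha : a = x0 + e := by
      rcases he with rfl | rfl <;> omega
    have hd : d = y + e := by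
      rcases he with rfl | rfl <;> omega
    have ha' : a = 1 ∨ a = 2 * (M : ℤ) - 1 := by
      rcases he with rfl | rfl <;> omega
    have hd' : d = 1 ∨ d = 2 * (M : ℤ) - 1 := by
      rcases he with rfl | rfl <;> omega
    clear cA cD c0 c1 c2 o1 o2 o3 o4
    rcases he with rfl | rfl <;> omega
  · exfalso
    have ha : a = x0 + e := by
      rcases he with rfl | rfl <;> omega
    clear cD c1 c2 o1 o2 o3 o4
    rcases he with rfl | rfl <;> omega

/-- The combinatorial core: an orientation preserving injection forces equality. -/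
theorem core {N M : ℕ} (hN : 3 ≤ N) (g : ℤ × ℤ → ℤ × ℤ) (hg : ∀ q ∈ ZZ N, g q ∈ ZZ M)
    (hinj : ∀ q ∈ ZZ N, ∀ q' ∈ ZZ N, g q = g q' → q = q')
    (ho : ∀ a ∈ ZZ N, ∀ b ∈ ZZ N, ∀ c ∈ ZZ N,
      SignType.sign (idet (g a) (g b) (g c)) = SignType.sign (idet a b c)) : N = M := by
  -- membership facts
  have mb : ∀ i : ℕ, i ≤ N → ((2 * (i : ℤ), (0 : ℤ)) ∈ ZZ N) := fun i hi =>
    (mem_ZZ N _).mpr (Or.inl ⟨i, hi, rfl⟩)
  have mt : ∀ i : ℕ, i ≤ N → ((-2 * (i : ℤ), (2 : ℤ)) ∈ ZZ N) := fun i hi =>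
    (mem_ZZ N _).mpr (Or.inr (Or.inr (Or.inr (Or.inl ⟨i, hi, rfl⟩))))
  have ma : ((1 : ℤ), (0 : ℤ)) ∈ ZZ N := (mem_ZZ N _).mpr (Or.inr (Or.inl rfl))
  have md : ((2 * (N : ℤ) - 1, (0 : ℤ))) ∈ ZZ N :=
    (mem_ZZ N _).mpr (Or.inr (Or.inr (Or.inl rfl)))
  have mr : ((0 : ℤ), (1 : ℤ)) ∈ ZZ N :=
    (mem_ZZ N _).mpr (Or.inr (Or.inr (Or.inr (Or.inr (Or.inl rfl)))))
  have ms : ((1 : ℤ), (1 : ℤ)) ∈ ZZ N :=
    (mem_ZZ N _).mpr (Or.inr (Or.inr (Or.inr (Or.inr (Or.inr rfl)))))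
  -- images
  set B : ℕ → ℤ × ℤ := fun i => g (2 * (i : ℤ), 0) with hB
  set T : ℕ → ℤ × ℤ := fun i => g (-2 * (i : ℤ), 2) with hT
  set r := g (0, 1) with hr
  set s := g (1, 1) with hs
  set A := g (1, 0) with hA
  set D := g (2 * (N : ℤ) - 1, 0) with hD
  have Bne : ∀ i j : ℕ, i ≤ N → j ≤ N → i ≠ j → B i ≠ B j := by
    intro i j hi hj hij h
    have := hinj _ (mb i hi) _ (mb j hj) h
    simp only [Prod.mk.injEq, and_true] at this
    omega
  have Tne : ∀ i j : ℕ, i ≤ N → j ≤ N → i ≠ j → T i ≠ T j := by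
    intro i j hi hj hij h
    have := hinj _ (mt i hi) _ (mt j hj) h
    simp only [Prod.mk.injEq, and_true] at this
    omega
  have zero_of : ∀ a ∈ ZZ N, ∀ b ∈ ZZ N, ∀ c ∈ ZZ N, idet a b c = 0 →
      idet (g a) (g b) (g c) = 0 := fun a ha b hb c hc h =>
    (sign_eq_zero_iff' (ho a ha b hb c hc)).mpr h
  have ne_of : ∀ a ∈ ZZ N, ∀ b ∈ ZZ N, ∀ c ∈ ZZ N, idet a b c ≠ 0 →
      idet (g a) (g b) (g c) ≠ 0 := fun a ha b hb c hc h h' =>
    h ((sign_eq_zero_iff' (ho a ha b hb c hc)).mp h')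
  have pos_of : ∀ a ∈ ZZ N, ∀ b ∈ ZZ N, ∀ c ∈ ZZ N, 0 < idet a b c →
      0 < idet (g a) (g b) (g c) := fun a ha b hb c hc h =>
    (sign_pos_iff' (ho a ha b hb c hc)).mpr h
  -- rows
  have hrowB : ((B 0).2 = 0 ∨ (B 0).2 = 2) ∧ (B 1).2 = (B 0).2 := by
    refine four_collinear (M := M) (p := B 0) (q := B 1) (r := B 2) (s := B 3)
      (hg _ (mb 0 (by omega))) (hg _ (mb 1 (by omega))) (hg _ (mb 2 (by omega)))
      (hg _ (mb 3 (by omega))) (Bne _ _ (by omega) (by omega) (by omega))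
      (Bne _ _ (by omega) (by omega) (by omega)) (Bne _ _ (by omega) (by omega) (by omega))
      (Bne _ _ (by omega) (by omega) (by omega)) (Bne _ _ (by omega) (by omega) (by omega))
      (Bne _ _ (by omega) (by omega) (by omega)) ?_
    have aux : ∀ a ∈ ({B 0, B 1, B 2, B 3} : Set (ℤ × ℤ)), ∃ i : ℕ, i ≤ N ∧ a = B i := by
      rintro a (rfl | rfl | rfl | rfl)
      · exact ⟨0, by omega, rfl⟩
      · exact ⟨1, by omega, rfl⟩
      · exact ⟨2, by omega, rfl⟩
      · exact ⟨3, by omega, rfl⟩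
    intro a ha b hb c hc
    obtain ⟨i, hi, rfl⟩ := aux a ha
    obtain ⟨j, hj, rfl⟩ := aux b hb
    obtain ⟨k, hk, rfl⟩ := aux c hc
    exact zero_of _ (mb i hi) _ (mb j hj) _ (mb k hk) (by simp [idet])
  have hrowT : ((T 0).2 = 0 ∨ (T 0).2 = 2) ∧ (T 1).2 = (T 0).2 := by
    refine four_collinear (M := M) (p := T 0) (q := T 1) (r := T 2) (s := T 3)
      (hg _ (mt 0 (by omega))) (hg _ (mt 1 (by omega))) (hg _ (mt 2 (by omega)))
      (hg _ (mt 3 (by omega))) (Tne _ _ (by omega) (by omega) (by omega))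
      (Tne _ _ (by omega) (by omega) (by omega)) (Tne _ _ (by omega) (by omega) (by omega))
      (Tne _ _ (by omega) (by omega) (by omega)) (Tne _ _ (by omega) (by omega) (by omega))
      (Tne _ _ (by omega) (by omega) (by omega)) ?_
    have aux : ∀ a ∈ ({T 0, T 1, T 2, T 3} : Set (ℤ × ℤ)), ∃ i : ℕ, i ≤ N ∧ a = T i := by
      rintro a (rfl | rfl | rfl | rfl)
      · exact ⟨0, by omega, rfl⟩
      · exact ⟨1, by omega, rfl⟩
      · exact ⟨2, by omega, rfl⟩
      · exact ⟨3, by omega, rfl⟩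
    intro a ha b hb c hc
    obtain ⟨i, hi, rfl⟩ := aux a ha
    obtain ⟨j, hj, rfl⟩ := aux b hb
    obtain ⟨k, hk, rfl⟩ := aux c hc
    exact zero_of _ (mt i hi) _ (mt j hj) _ (mt k hk) (by simp [idet])
  have B01 := Bne 0 1 (by omega) (by omega) (by omega)
  have T01 := Tne 0 1 (by omega) (by omega) (by omega)
  have rowB : ∀ i : ℕ, i ≤ N → (B i).2 = (B 0).2 := fun i hi =>
    row_of_two B01 hrowB.2.symm (zero_of _ (mb 0 (by omega)) _ (mb 1 (by omega)) _ (mb i hi)
      (by simp [idet]))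
  have rowT : ∀ i : ℕ, i ≤ N → (T i).2 = (T 0).2 := fun i hi =>
    row_of_two T01 hrowT.2.symm (zero_of _ (mt 0 (by omega)) _ (mt 1 (by omega)) _ (mt i hi)
      (by simp [idet]))
  have rowA : A.2 = (B 0).2 :=
    row_of_two B01 hrowB.2.symm (zero_of _ (mb 0 (by omega)) _ (mb 1 (by omega)) _ ma
      (by simp [idet]))
  have rowD : D.2 = (B 0).2 :=
    row_of_two B01 hrowB.2.symm (zero_of _ (mb 0 (by omega)) _ (mb 1 (by omega)) _ md
      (by simp [idet]))
  have ne_row : ∀ p q t : ℤ × ℤ, q.2 = p.2 → idet p q t ≠ 0 → t.2 ≠ p.2 := by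
    intro p q t h hd ht
    apply hd
    unfold idet
    rw [h, ht]; ring
  have hTB : (T 0).2 ≠ (B 0).2 := ne_row _ _ _ hrowB.2
    (ne_of _ (mb 0 (by omega)) _ (mb 1 (by omega)) _ (mt 0 (by omega)) (by simp [idet]))
  have hrB : r.2 ≠ (B 0).2 := ne_row _ _ _ hrowB.2
    (ne_of _ (mb 0 (by omega)) _ (mb 1 (by omega)) _ mr (by simp [idet]))
  have hsB : s.2 ≠ (B 0).2 := ne_row _ _ _ hrowB.2
    (ne_of _ (mb 0 (by omega)) _ (mb 1 (by omega)) _ ms (by simp [idet]))
  have hrT : r.2 ≠ (T 0).2 := ne_row _ _ _ hrowT.2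
    (ne_of _ (mt 0 (by omega)) _ (mt 1 (by omega)) _ mr (by simp [idet]))
  have hsT : s.2 ≠ (T 0).2 := ne_row _ _ _ hrowT.2
    (ne_of _ (mt 0 (by omega)) _ (mt 1 (by omega)) _ ms (by simp [idet]))
  have hrs : r ≠ s := by
    intro h
    have := hinj _ mr _ ms h
    simp at this
  have cr := ZZ_cases (hg _ mr)
  have cs := ZZ_cases (hg _ ms)
  rw [← hr] at cr
  rw [← hs] at cs
  have hr2 : r.2 = 1 := by omega
  have hs2 : s.2 = 1 := by omega
  have hrs1 : r.1 ≠ s.1 := fun h => hrs (Prod.ext h (by omega))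
  have he : s.1 - r.1 = 1 ∨ s.1 - r.1 = -1 := by omega
  -- the height difference
  obtain ⟨σ, hσ, hσ2⟩ : ∃ σ : ℤ, (σ = 1 ∨ σ = -1) ∧ (T 0).2 = (B 0).2 + 2 * σ := by
    rcases hrowB.1 with h | h <;> rcases hrowT.1 with h' | h'
    · exact absurd (h'.trans h.symm) hTB
    · exact ⟨1, Or.inl rfl, by omega⟩
    · exact ⟨-1, Or.inr rfl, by omega⟩
    · exact absurd (h'.trans h.symm) hTB
  have hB1 : (B 0).2 = 1 - σ := by
    rcases hσ with rfl | rfl <;> omega
  -- midpoint relations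
  have mid1 : ∀ i : ℕ, i ≤ N → (B i).1 + (T i).1 = 2 * r.1 := by
    intro i hi
    have h0 := zero_of _ (mb i hi) _ mr _ (mt i hi) (by simp [idet]; ring)
    change idet (B i) r (T i) = 0 at h0
    have h1 := rowB i hi
    have h2 := rowT i hi
    unfold idet at h0
    rw [h1, h2, hr2, hσ2, hB1] at h0
    rcases hσ with rfl | rfl <;> linarith
  have mid2 : ∀ i : ℕ, i + 1 ≤ N → (T i).1 + (B (i + 1)).1 = 2 * s.1 := by
    intro i hi
    have h0 := zero_of _ (mt i (by omega)) _ ms _ (mb (i + 1) hi) (by simp [idet]; ring)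
    change idet (T i) s (B (i + 1)) = 0 at h0
    have h1 := rowB (i + 1) hi
    have h2 := rowT i (by omega)
    unfold idet at h0
    rw [h1, h2, hs2, hσ2, hB1] at h0
    rcases hσ with rfl | rfl <;> linarith
  have step : ∀ i : ℕ, i + 1 ≤ N → (B (i + 1)).1 = (B i).1 + 2 * (s.1 - r.1) := by
    intro i hi
    have h1 := mid1 i (by omega)
    have h2 := mid2 i hi
    linarith
  have lin : ∀ i : ℕ, i ≤ N → (B i).1 = (B 0).1 + 2 * (s.1 - r.1) * i := by
    intro i
    induction i with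
    | zero => intro _; simp
    | succ i ih =>
      intro hi
      rw [step i hi, ih (by omega)]
      push_cast; ring
  -- order along the bottom row
  have ord : ∀ u v : ℤ, (u, (0 : ℤ)) ∈ ZZ N → (v, (0 : ℤ)) ∈ ZZ N → u < v →
      (g (u, 0)).2 = (B 0).2 → (g (v, 0)).2 = (B 0).2 → 0 < ((g (v, 0)).1 - (g (u, 0)).1) * σ := by
    intro u v hu hv huv h1 h2
    have h0 := pos_of _ hu _ hv _ (mt 0 (by omega)) (by simp only [idet]; simp; omega)
    change 0 < idet (g (u, 0)) (g (v, 0)) (T 0) at h0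
    unfold idet at h0
    rw [h1, h2, hσ2] at h0
    have : ((g (v, 0)).1 - (g (u, 0)).1) * ((B 0).2 + 2 * σ - (B 0).2) -
        ((B 0).2 - (B 0).2) * ((T 0).1 - (g (u, 0)).1) =
        2 * (((g (v, 0)).1 - (g (u, 0)).1) * σ) := by ring
    rw [this] at h0
    omega
  have eB0 : g (0, 0) = B 0 := by simp [hB]
  have eB1 : g (2, 0) = B 1 := by simp [hB]
  have o1 := ord 0 1 (by simpa using mb 0 (by omega)) ma (by norm_num)
    (by rw [eB0]) rowA
  have o2 := ord 1 2 ma (by simpa using mb 1 (by omega)) (by norm_num) rowA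
    (by rw [eB1]; exact rowB 1 (by omega))
  have mN : ((2 * ((N - 1 : ℕ) : ℤ), (0 : ℤ))) ∈ ZZ N := mb (N - 1) (by omega)
  have o3 := ord (2 * ((N - 1 : ℕ) : ℤ)) (2 * (N : ℤ) - 1) mN md (by omega)
    (rowB (N - 1) (by omega)) rowD
  have o4 := ord (2 * (N : ℤ) - 1) (2 * (N : ℤ)) md (mb N le_rfl) (by omega) rowD
    (rowB N le_rfl)
  have eBN1 : g (2 * ((N - 1 : ℕ) : ℤ), 0) = B (N - 1) := rfl
  have eBN : g (2 * (N : ℤ), 0) = B N := rfl
  rw [eB0, ← hA] at o1
  rw [eB1, ← hA] at o2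
  rw [eBN1, ← hD] at o3
  rw [eBN, ← hD] at o4
  have l1 := lin 1 (by omega)
  have l2 := lin 2 (by omega)
  have l3 := lin (N - 1) (by omega)
  have l4 := lin N le_rfl
  have r1 := rowB 1 (by omega)
  have r2 := rowB 2 (by omega)
  have hN1 : ((N - 1 : ℕ) : ℤ) = (N : ℤ) - 1 := by omega
  rw [hN1] at l3
  have conv : ∀ q : ℤ × ℤ, q ∈ ZZ M → q.2 = (B 0).2 →
      (σ = 1 ∧ (q.1 % 2 = 0 ∨ q.1 = 1 ∨ q.1 = 2 * (M : ℤ) - 1)) ∨ (σ = -1 ∧ q.1 % 2 = 0) := by
    intro q hq h2
    have h1 := ZZ_cases hq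
    rw [h2, hB1] at h1
    omega
  exact final_arith hN (s.1 - r.1) σ (B 0).1 (B 1).1 (B 2).1 (B (N - 1)).1 (B N).1 A.1 D.1
    he hσ (by rw [l1]; push_cast; ring) (by rw [l2]; push_cast; ring) l3 l4 o1 o2 o3 o4
    (conv A (hg _ ma) rowA) (conv D (hg _ md) rowD) (conv (B 0) (hg _ (mb 0 (by omega))) rfl)
    (conv (B 1) (hg _ (mb 1 (by omega))) r1) (conv (B 2) (hg _ (mb 2 (by omega))) r2)

/-! ### Transfer to the plane -/

theorem not_sub {N M : ℕ} (hN : 3 ≤ N) (h : IsSubconfig (Z N) (Z M)) : N = M := by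
  obtain ⟨U, hU, e, he⟩ := h
  have hex : ∀ q : ℤ × ℤ, ∃ q' : ℤ × ℤ, ∀ h : q ∈ ZZ N,
      q' ∈ ZZ M ∧ (e ⟨P q, Finset.mem_map_of_mem _ h⟩ : Plane) = P q' := by
    intro q
    by_cases h : q ∈ ZZ N
    · have h1 : (e ⟨P q, Finset.mem_map_of_mem _ h⟩ : Plane) ∈ Z M := hU (e _).2
      obtain ⟨q', hq', hq2⟩ := Finset.mem_map.mp h1
      exact ⟨q', fun _ => ⟨hq', hq2.symm⟩⟩
    · exact ⟨q, fun h' => absurd h' h⟩
  choose g hg using hex
  refine core hN g (fun q hq => (hg q hq).1) ?_ ?_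
  · intro q hq q' hq' h
    have h1 := (hg q hq).2
    have h2 := (hg q' hq').2
    rw [h, ← h2] at h1
    have h3 := e.injective (Subtype.ext h1)
    exact P_injective (congrArg Subtype.val h3)
  · intro a ha b hb c hc
    have h1 := he ⟨P a, Finset.mem_map_of_mem _ ha⟩ ⟨P b, Finset.mem_map_of_mem _ hb⟩
      ⟨P c, Finset.mem_map_of_mem _ hc⟩
    rw [(hg a ha).2, (hg b hb).2, (hg c hc).2] at h1
    unfold orient at h1
    simp only [det3_P] at h1
    have sc : ∀ n : ℤ, SignType.sign (n : ℝ) = SignType.sign n := by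
      intro n
      rcases lt_trichotomy n 0 with h | h | h
      · rw [sign_neg h, sign_neg (by exact_mod_cast h)]
      · subst h; simp
      · rw [sign_pos h, sign_pos (by exact_mod_cast h)]
    rwa [sc, sc] at h1

/-! ### No six points in convex position -/

theorem collinear_row (a b c : ℤ × ℤ) (h1 : b.2 = a.2) (h2 : c.2 = a.2) :
    Collinear ℝ ({P a, P b, P c} : Set Plane) := by
  rw [collinear_iff_of_mem (p₀ := P a) (by simp)]
  refine ⟨P (1, 0), ?_⟩
  intro p hp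
  rcases hp with rfl | rfl | rfl
  · exact ⟨0, by simp⟩
  · refine ⟨(b.1 : ℝ) - a.1, ?_⟩
    ext i
    fin_cases i
    · simp
    · simp [h1]
  · refine ⟨(c.1 : ℝ) - a.1, ?_⟩
    ext i
    fin_cases i
    · simp
    · simp [h2]

theorem card_row_le {U : Finset (ℤ × ℤ)} (hU : ConvexPosition (U.map ⟨P, P_injective⟩)) (h : ℤ) :
    (U.filter fun q => q.2 = h).card ≤ 2 := by
  by_contra hcon
  rw [not_le, Finset.two_lt_card] at hcon
  obtain ⟨a, ha, b, hb, c, hc, hab, hac, hbc⟩ := hcon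
  rw [Finset.mem_filter] at ha hb hc
  exact hU.1 (P a) (Finset.mem_map_of_mem _ ha.1) (P b) (Finset.mem_map_of_mem _ hb.1) (P c)
    (Finset.mem_map_of_mem _ hc.1) (fun h => hab (P_injective h)) (fun h => hbc (P_injective h))
    (fun h => hac (P_injective h))
    (collinear_row a b c (hb.2.trans ha.2.symm) (hc.2.trans ha.2.symm))

/-- A point lying strictly between two points of the hull is not extreme. -/
theorem not_between {U : Finset Plane} {p x y : Plane}
    (hp : p ∈ (convexHull ℝ (U : Set Plane)).extremePoints ℝ)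
    (hx : x ∈ convexHull ℝ (U : Set Plane)) (hy : y ∈ convexHull ℝ (U : Set Plane))
    (h : p ∈ openSegment ℝ x y) : x = p :=
  (mem_extremePoints.mp hp).2 x hx y hy h |>.1

theorem card_le_five {N : ℕ} {U : Finset (ℤ × ℤ)} (hUN : U ⊆ ZZ N)
    (hU : ConvexPosition (U.map ⟨P, P_injective⟩)) : U.card ≤ 5 := by
  by_contra hcon
  rw [not_le] at hcon
  have h0 := card_row_le hU 0
  have h1 := card_row_le hU 1
  have h2 := card_row_le hU 2
  have hsub : U ⊆ (U.filter fun q => q.2 = 0) ∪ (U.filter fun q => q.2 = 1) ∪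
      (U.filter fun q => q.2 = 2) := by
    intro q hq
    have := ZZ_cases (hUN hq)
    simp only [Finset.mem_union, Finset.mem_filter, hq, true_and]
    omega
  have hc : U.card ≤ (U.filter fun q => q.2 = 0).card + (U.filter fun q => q.2 = 1).card +
      (U.filter fun q => q.2 = 2).card :=
    (Finset.card_le_card hsub).trans ((Finset.card_union_le _ _).trans
      (Nat.add_le_add_right (Finset.card_union_le _ _) _))
  have e0 : (U.filter fun q => q.2 = 0).card = 2 := by omega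
  have e1 : (U.filter fun q => q.2 = 1).card = 2 := by omega
  have e2 : (U.filter fun q => q.2 = 2).card = 2 := by omega
  -- extract ordered pairs
  have ext : ∀ h : ℤ, (U.filter fun q => q.2 = h).card = 2 →
      ∃ x y : ℤ, x < y ∧ (x, h) ∈ U ∧ (y, h) ∈ U := by
    intro h he
    obtain ⟨a, b, hab, hs⟩ := Finset.card_eq_two.mp he
    have ha : a ∈ U.filter fun q => q.2 = h := by rw [hs]; simp
    have hb : b ∈ U.filter fun q => q.2 = h := by rw [hs]; simp
    rw [Finset.mem_filter] at ha hb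
    obtain ⟨a1, a2⟩ := a
    obtain ⟨b1, b2⟩ := b
    obtain ⟨ha, rfl⟩ := ha
    obtain ⟨hb, hb2⟩ := hb
    simp only at hb2
    subst hb2
    have hne : a1 ≠ b1 := fun h => hab (by rw [h])
    rcases lt_or_gt_of_ne hne with h | h
    · exact ⟨a1, b1, h, ha, hb⟩
    · exact ⟨b1, a1, h, hb, ha⟩
  obtain ⟨b1, b2, hb, mb1, mb2⟩ := ext 0 e0
  obtain ⟨t1, t2, ht, mt1, mt2⟩ := ext 2 e2
  obtain ⟨r1, s1, hrs, mr, ms⟩ := ext 1 e1
  have cr := ZZ_cases (hUN mr)
  have cs := ZZ_cases (hUN ms)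
  simp only at cr cs
  have hr1 : r1 = 0 := by omega
  have hs1 : s1 = 1 := by omega
  subst hr1 hs1
  have inU : ∀ q ∈ U, P q ∈ (U.map ⟨P, P_injective⟩) := fun q hq => Finset.mem_map_of_mem _ hq
  have inH : ∀ q ∈ U, P q ∈ convexHull ℝ ((U.map ⟨P, P_injective⟩ : Finset Plane) : Set Plane) :=
    fun q hq => subset_convexHull ℝ _ (Finset.mem_coe.mpr (inU q hq))
  -- midpoint of a bottom and a top point
  have midH : ∀ b t : ℤ, (b, 0) ∈ U → (t, 2) ∈ U →
      (!₂[((b : ℝ) + t) / 2, 1] : Plane) ∈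
        convexHull ℝ ((U.map ⟨P, P_injective⟩ : Finset Plane) : Set Plane) := by
    intro b t hb ht
    have := (convex_convexHull ℝ ((U.map ⟨P, P_injective⟩ : Finset Plane) : Set Plane))
      (inH _ hb) (inH _ ht) (a := 1 / 2) (b := 1 / 2) (by norm_num) (by norm_num) (by norm_num)
    convert this using 1
    ext i
    fin_cases i
    · simp; ring
    · simp
  have exr := hU.2 _ (inU _ mr)
  have exs := hU.2 _ (inU _ ms)
  have hleft : 0 < b1 + t1 := by
    by_contra hle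
    have hle' : ((b1 : ℝ) + t1) ≤ 0 := by exact_mod_cast not_lt.mp hle
    rcases hle'.lt_or_eq with hlt | heq
    · -- r strictly between L and s
      have := not_between exr (midH b1 t1 mb1 mt1) (inH _ ms) (by
        rw [openSegment_eq_image]
        obtain ⟨L, hL⟩ : ∃ L : ℝ, L = ((b1 : ℝ) + t1) / 2 := ⟨_, rfl⟩
        rw [← hL]
        refine ⟨(-L) / (1 - L), ⟨by apply div_pos <;> linarith,
          by rw [div_lt_one] <;> linarith⟩, ?_⟩
        have hne : (1 - L) ≠ 0 := by linarith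
        have key : (1 - (-L) / (1 - L)) * L + (-L) / (1 - L) = 0 := by
          field_simp
          ring
        ext i
        fin_cases i
        · simpa using key
        · simp)
      have h3 := congrArg (fun v : Plane => v 0) this
      simp at h3
      linarith
    · have := not_between exr (inH _ mb1) (inH _ mt1) (by
        rw [openSegment_eq_image]
        refine ⟨1 / 2, ⟨by norm_num, by norm_num⟩, ?_⟩
        ext i
        fin_cases i
        · simp
          linarith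
        · simp)
      have h3 := congrArg (fun v : Plane => v 1) this
      simp at h3
  have hright : b2 + t2 < 2 := by
    by_contra hle
    have hle' : 2 ≤ ((b2 : ℝ) + t2) := by exact_mod_cast not_lt.mp hle
    rcases hle'.lt_or_eq with hlt | heq
    · have := not_between exs (midH b2 t2 mb2 mt2) (inH _ mr) (by
        rw [openSegment_eq_image]
        obtain ⟨L, hL⟩ : ∃ L : ℝ, L = ((b2 : ℝ) + t2) / 2 := ⟨_, rfl⟩
        rw [← hL]
        refine ⟨(L - 1) / L, ⟨by apply div_pos <;> linarith,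
          by rw [div_lt_one] <;> linarith⟩, ?_⟩
        have hne : L ≠ 0 := by linarith
        have key : (1 - (L - 1) / L) * L = 1 := by
          field_simp
          ring
        ext i
        fin_cases i
        · simpa using key
        · simp)
      have h3 := congrArg (fun v : Plane => v 0) this
      simp at h3
      linarith
    · have := not_between exs (inH _ mb2) (inH _ mt2) (by
        rw [openSegment_eq_image]
        refine ⟨1 / 2, ⟨by norm_num, by norm_num⟩, ?_⟩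
        ext i
        fin_cases i
        · simp
          linarith
        · simp)
      have h3 := congrArg (fun v : Plane => v 1) this
      simp at h3
  omega

theorem maxConvex_lt (N : ℕ) : maxConvex (Z N) < 6 := by
  have : maxConvex (Z N) ≤ 5 := by
    unfold maxConvex
    apply csSup_le'
    rintro n ⟨U, hU, hc, rfl⟩
    obtain ⟨V, hV, rfl⟩ : ∃ V : Finset (ℤ × ℤ), V ⊆ ZZ N ∧ U = V.map ⟨P, P_injective⟩ := by
      unfold Z at hU
      exact Finset.subset_map_iff.mp hU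
    rw [Finset.card_map]
    exact card_le_five hV hc
  omega

/-- Sanity check: the configurations `Z N` contain at least `N` points. -/
theorem card_Z_ge (N : ℕ) : N ≤ (Z N).card := by
  unfold Z
  rw [Finset.card_map]
  have h : ((Finset.range (N + 1)).image fun i : ℕ => ((2 * i : ℤ), (0 : ℤ))) ⊆ ZZ N := by
    intro q hq
    simp only [ZZ, Finset.mem_union]
    exact Or.inl (Or.inl (Or.inl hq))
  have h2 := Finset.card_le_card h
  rw [Finset.card_image_of_injective _ (by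
    intro a b hab
    simp only [Prod.mk.injEq, and_true] at hab
    omega), Finset.card_range] at h2
  omega

/-- The class of configurations without six points in convex position contains an infinite
antichain for the subconfiguration order (hence is not well-quasi-ordered): there is an infinite
sequence of configurations, each with `MAXCONVEX < 6`, none of which is a subconfiguration of
another. -/
theorem result : ∃ S : ℕ → Finset Plane, (∀ n, maxConvex (S n) < 6) ∧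
    ∀ i j, i ≠ j → ¬ IsSubconfig (S i) (S j) := by
  refine ⟨fun n => Z (n + 3), fun n => maxConvex_lt _, fun i j hij h => hij ?_⟩
  have := not_sub (by omega) h
  omega

end Pool.Agent.Results.MP_708b53_co.NotWQO
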